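import Pool.Agent.L0h7.TW.Stm

/-!
# Project TW: Hilbert's basis theorem for twisted Laurent polynomial rings (module TNO; helper55)

`g i` is the `i`-th power of the generator of the infinite cyclic group `F`; an element of the twisted
group ring is written as a sum of `g i * a i`, and `rc p i` is the right coefficient `a i`.
-/

set_option autoImplicit false
set_option linter.all false

noncomputable section

namespace Pool.Agent.L0h55.TW

open SkewMonoidAlgebra

variable {A F : Type} [Ring A] [Group F] [MulSemiringAction F A]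

/-- the element of the infinite cyclic group which belongs to the integer `i` -/
def gn (e : F ≃* Multiplicative ℤ) (i : ℤ) : F := e.symm (Multiplicative.ofAdd i)

theorem gn_zero (e : F ≃* Multiplicative ℤ) : gn e 0 = 1 := by
  unfold gn
  rw [ofAdd_zero, map_one]

theorem gn_add (e : F ≃* Multiplicative ℤ) (i j : ℤ) : gn e (i + j) = gn e i * gn e j := by
  unfold gn
  rw [ofAdd_add, map_mul]

theorem gn_neg (e : F ≃* Multiplicative ℤ) (i : ℤ) : gn e (-i) = (gn e i)⁻¹ := by
  unfold gn
  rw [ofAdd_neg, map_inv]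

theorem e_gn (e : F ≃* Multiplicative ℤ) (i : ℤ) : Multiplicative.toAdd (e (gn e i)) = i := by
  unfold gn
  rw [MulEquiv.apply_symm_apply]
  rfl

theorem gn_e (e : F ≃* Multiplicative ℤ) (x : F) : gn e (Multiplicative.toAdd (e x)) = x := by
  unfold gn
  rw [ofAdd_toAdd, MulEquiv.symm_apply_apply]

/-- the right coefficient -/
def rc (e : F ≃* Multiplicative ℤ) (p : SkewMonoidAlgebra A F) (i : ℤ) : A :=
  (gn e i)⁻¹ • p.coeff (gn e i)

theorem rc_add (e : F ≃* Multiplicative ℤ) (p q : SkewMonoidAlgebra A F) (i : ℤ) :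
    rc e (p + q) i = rc e p i + rc e q i := by
  unfold rc
  rw [coeff_add, Finsupp.add_apply, smul_add]

theorem rc_sub (e : F ≃* Multiplicative ℤ) (p q : SkewMonoidAlgebra A F) (i : ℤ) :
    rc e (p - q) i = rc e p i - rc e q i := by
  unfold rc
  rw [coeff_sub, Finsupp.sub_apply, smul_sub]

theorem rc_zero (e : F ≃* Multiplicative ℤ) (i : ℤ) : rc e (0 : SkewMonoidAlgebra A F) i = 0 := by
  unfold rc
  rw [coeff_zero, Finsupp.zero_apply, smul_zero]

theorem rc_shift (e : F ≃* Multiplicative ℤ) (p : SkewMonoidAlgebra A F) (k i : ℤ) :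
    rc e (single (gn e k) 1 * p) i = rc e p (i - k) := by
  unfold rc
  rw [coeff_single_mul, one_mul, smul_smul]
  have h1 : (gn e k)⁻¹ * gn e i = gn e (i - k) := by
    rw [← gn_neg, ← gn_add]
    congr 1
    ring
  have h2 : (gn e i)⁻¹ * gn e k = (gn e (i - k))⁻¹ := by
    rw [← h1, mul_inv_rev, inv_inv]
  rw [h1, h2]

theorem rc_coef (e : F ≃* Multiplicative ℤ) (p : SkewMonoidAlgebra A F) (c : A) (i : ℤ) :
    rc e (single 1 c * p) i = ((gn e i)⁻¹ • c) * rc e p i := by
  unfold rc
  rw [coeff_single_one_mul, smul_mul']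

theorem eq_zero_of_rc (e : F ≃* Multiplicative ℤ) (p : SkewMonoidAlgebra A F)
    (h : ∀ i, rc e p i = 0) : p = 0 := by
  refine SkewMonoidAlgebra.ext fun x => ?_
  have h1 := h (Multiplicative.toAdd (e x))
  unfold rc at h1
  rw [gn_e] at h1
  rw [coeff_zero, Finsupp.zero_apply]
  exact (smul_eq_zero_iff_eq _).1 h1

/-- the right coefficients outside of the interval from `0` to `k - 1` are zero -/
def Lo (e : F ≃* Multiplicative ℤ) (k : ℕ) (p : SkewMonoidAlgebra A F) : Prop :=
  ∀ i : ℤ, (i < 0 ∨ (k : ℤ) ≤ i) → rc e p i = 0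

/-- the right coefficients of degree `n` of the polynomials of degree at most `n` in `J` -/
def lead (e : F ≃* Multiplicative ℤ) (J : Ideal (SkewMonoidAlgebra A F)) (n : ℕ) : Ideal A where
  carrier := {a | ∃ p ∈ J, Lo e (n + 1) p ∧ rc e p n = a}
  add_mem' := by
    rintro a b ⟨p, hp, hp1, hp2⟩ ⟨q, hq, hq1, hq2⟩
    refine ⟨p + q, J.add_mem hp hq, fun i hi => ?_, ?_⟩
    · rw [rc_add, hp1 i hi, hq1 i hi, add_zero]
    · rw [rc_add, hp2, hq2]
  zero_mem' := ⟨0, J.zero_mem, fun i _ => rc_zero e i, rc_zero e n⟩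
  smul_mem' := by
    rintro c a ⟨p, hp, hp1, hp2⟩
    refine ⟨single 1 (gn e n • c) * p, J.mul_mem_left _ hp, fun i hi => ?_, ?_⟩
    · rw [rc_coef, hp1 i hi, mul_zero]
    · rw [rc_coef, hp2, inv_smul_smul, smul_eq_mul]

theorem lead_succ (e : F ≃* Multiplicative ℤ) (J : Ideal (SkewMonoidAlgebra A F)) (n : ℕ) :
    lead e J n ≤ lead e J (n + 1) := by
  rintro a ⟨p, hp, hp1, hp2⟩
  refine ⟨single (gn e 1) 1 * p, J.mul_mem_left _ hp, fun i hi => ?_, ?_⟩
  · rw [rc_shift]
    refine hp1 _ ?_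
    push_cast at hi ⊢
    omega
  · rw [rc_shift, ← hp2]
    congr 1
    push_cast
    ring

/-- finitely many polynomials have the same leading coefficients -/
theorem exists_fg (e : F ≃* Multiplicative ℤ) (hA : IsNoetherianRing A)
    (J : Ideal (SkewMonoidAlgebra A F)) (n : ℕ) :
    ∃ K : Ideal (SkewMonoidAlgebra A F), K.FG ∧ K ≤ J ∧ lead e J n ≤ lead e K n := by
  obtain ⟨s, hs⟩ := (isNoetherianRing_iff_ideal_fg A).mp hA (lead e J n)
  have h1 : ∀ a ∈ s, ∃ p ∈ J, Lo e (n + 1) p ∧ rc e p n = a := by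
    intro a ha
    have h2 : a ∈ lead e J n := by
      rw [← hs]
      exact Submodule.subset_span ha
    exact h2
  choose! g hg1 hg2 hg3 using h1
  classical
  refine ⟨Submodule.span (SkewMonoidAlgebra A F) (s.image g : Set (SkewMonoidAlgebra A F)),
    ⟨s.image g, rfl⟩, ?_, ?_⟩
  · rw [Submodule.span_le]
    intro p hp
    rw [Finset.mem_coe, Finset.mem_image] at hp
    obtain ⟨a, ha, rfl⟩ := hp
    exact hg1 a ha
  · rw [← hs, Submodule.span_le]
    intro a ha
    refine ⟨g a, Submodule.subset_span ?_, hg2 a ha, hg3 a ha⟩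
    rw [Finset.mem_coe, Finset.mem_image]
    exact ⟨a, ha, rfl⟩

theorem exists_shift (e : F ≃* Multiplicative ℤ) (f : SkewMonoidAlgebra A F) :
    ∃ B : ℕ, Lo e (2 * B) (single (gn e B) 1 * f) := by
  refine ⟨(f.support.sup fun x => (Multiplicative.toAdd (e x)).natAbs) + 1, fun i hi => ?_⟩
  set B := f.support.sup fun x => (Multiplicative.toAdd (e x)).natAbs with hB
  rw [rc_shift]
  by_contra hne
  have h1 : gn e (i - ((B + 1 : ℕ) : ℤ)) ∈ f.support := by
    rw [mem_support_iff]
    intro h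
    refine hne ?_
    unfold rc
    rw [h, smul_zero]
  have h2 : (Multiplicative.toAdd (e (gn e (i - ((B + 1 : ℕ) : ℤ))))).natAbs ≤ B :=
    Finset.le_sup (f := fun x => (Multiplicative.toAdd (e x)).natAbs) h1
  rw [e_gn] at h2
  push_cast at h2 hi
  omega

theorem noeth (e : F ≃* Multiplicative ℤ) (hA : IsNoetherianRing A) :
    IsNoetherianRing (SkewMonoidAlgebra A F) := by
  rw [isNoetherianRing_iff_ideal_fg]
  intro J
  obtain ⟨N, hN⟩ := monotone_stabilizes_iff_noetherian.mpr hA
    ⟨lead e J, monotone_nat_of_le_succ (lead_succ e J)⟩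
  choose K hK1 hK2 hK3 using exists_fg e hA J
  have hfg : (⨆ n ∈ Finset.range (N + 1), K n).FG :=
    Submodule.fg_biSup _ _ fun n _ => hK1 n
  have hle : (⨆ n ∈ Finset.range (N + 1), K n) ≤ J := iSup₂_le fun n _ => hK2 n
  have hsub : ∀ n, n ≤ N → K n ≤ ⨆ n ∈ Finset.range (N + 1), K n := fun n hn =>
    le_iSup₂_of_le n (Finset.mem_range.mpr (by omega)) le_rfl
  have key : ∀ k, ∀ p ∈ J, Lo e k p → p ∈ ⨆ n ∈ Finset.range (N + 1), K n := by
    intro k
    induction k with
    | zero =>
      intro p _ hp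
      have : p = 0 := eq_zero_of_rc e p fun i => hp i (by push_cast; omega)
      rw [this]
      exact Submodule.zero_mem _
    | succ k ih =>
      intro p hpJ hp
      obtain ⟨q, hq, hq1, hq2⟩ : ∃ q ∈ ⨆ n ∈ Finset.range (N + 1), K n, Lo e (k + 1) q ∧
          rc e q k = rc e p k := by
        have hmem : rc e p k ∈ lead e J k := ⟨p, hpJ, hp, rfl⟩
        rcases le_or_gt k N with hk | hk
        · obtain ⟨q, hq, hq1, hq2⟩ := hK3 k hmem
          exact ⟨q, hsub k hk hq, hq1, hq2⟩
        · have h1 : lead e J N = lead e J k := hN k hk.le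
          rw [← h1] at hmem
          obtain ⟨q, hq, hq1, hq2⟩ := hK3 N hmem
          refine ⟨single (gn e ((k - N : ℕ) : ℤ)) 1 * q,
            Ideal.mul_mem_left _ _ (hsub N le_rfl hq), fun i hi => ?_, ?_⟩
          · rw [rc_shift]
            refine hq1 _ ?_
            push_cast at hi ⊢
            omega
          · rw [rc_shift, ← hq2]
            congr 1
            omega
      have h3 : p - q ∈ ⨆ n ∈ Finset.range (N + 1), K n := by
        refine ih _ (J.sub_mem hpJ (hle hq)) fun i hi => ?_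
        rw [rc_sub]
        by_cases h : i = k
        · rw [h, hq2, sub_self]
        · have h5 : i < 0 ∨ ((k + 1 : ℕ) : ℤ) ≤ i := by
            push_cast
            omega
          rw [hp i h5, hq1 i h5, sub_zero]
      have h4 := Submodule.add_mem _ h3 hq
      rwa [sub_add_cancel] at h4
  have heq : J = ⨆ n ∈ Finset.range (N + 1), K n := by
    refine le_antisymm (fun f hf => ?_) hle
    obtain ⟨B, hB⟩ := exists_shift e f
    have h1 := key _ _ (J.mul_mem_left _ hf) hB
    have h2 := Ideal.mul_mem_left (⨆ n ∈ Finset.range (N + 1), K n) (single (gn e (-(B : ℤ))) 1) h1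
    have h3 : single (gn e (-(B : ℤ))) (1 : A) * (single (gn e (B : ℤ)) 1 * f) = f := by
      rw [← mul_assoc, single_mul_single, ← gn_add, neg_add_cancel, gn_zero, smul_one, mul_one,
        single_one_one, one_mul]
    rwa [h3] at h2
  rw [heq]
  exact hfg

/-- **TNO** -/
theorem t_TNO : Pool.Agent.L0h7.TW.S_TNO := by
  intro A F _ _ _ he hA
  obtain ⟨e⟩ := he
  exact noeth e hA

end Pool.Agent.L0h55.TW
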